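import Pool.Agent.Helper78.WK3.StA
import Pool.Agent.Helper28.WK.StB

/-!
# Theorem A for `p = 3` in the form `TAp 3`
-/

set_option autoImplicit false

open Pool.Agent.Helper14.CV Pool.Agent.Helper14.W3 Pool.Agent.Helper28.WK

namespace Pool.Agent.Helper78.WK3

theorem symP_three {R : Type} [AddCommGroup R] (r s : ℕ) (G : ℤ → ℤ → R) :
    SymP 3 r s G ↔ Sym3 r s G := by
  unfold SymP Sym3
  simp only [Nat.cast_ofNat]

/-- The content UI3 from UIP. -/
theorem hUI3 (h : UIp) : UI3 := by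
  intro R _ r s χ hχ hu
  refine h 3 (by norm_num) R _ r s χ ((symP_three r s χ).2 hχ) ?_
  simpa only [Nat.cast_ofNat] using hu

/-- All words in the Hecke operators `T_l`, `l ≠ 3` prime, kill the central path. -/
private def Wd {R : Type} [AddCommGroup R] (m : ℤ) (G : ℤ → ℤ → R) : Prop :=
  ∀ ls : List ℕ, Ok 3 ls → evw m ls G = 0

private theorem Tw_append {R : Type} [AddCommGroup R] (m : ℤ) (l₁ l₂ : List ℕ)
    (G : ℤ → ℤ → R) : Tw m (l₁ ++ l₂) G = Tw m l₁ (Tw m l₂ G) := by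
  induction l₁ with
  | nil => rfl
  | cons l ls ih => simp only [List.cons_append, Tw, ih]

private theorem Tw_add {R : Type} [AddCommGroup R] (m : ℤ) (ls : List ℕ) (G H : ℤ → ℤ → R) :
    Tw m ls (G + H) = Tw m ls G + Tw m ls H := by
  induction ls with
  | nil => rfl
  | cons l ls ih => simp only [Tw, ih, Tl_add]

private theorem Tw_neg {R : Type} [AddCommGroup R] (m : ℤ) (ls : List ℕ) (G : ℤ → ℤ → R) :
    Tw m ls (-G) = -Tw m ls G := by
  induction ls with
  | nil => rfl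
  | cons l ls ih => simp only [Tw, ih, Tl_neg]

private theorem Wd_Tl {R : Type} [AddCommGroup R] {m : ℤ} {G : ℤ → ℤ → R} (h : Wd m G) {l : ℕ}
    (hl : l.Prime) (hl3 : l ≠ 3) : Wd m (Tl l m G) := by
  intro ls hls
  have h1 := h (ls ++ [l]) (by
    intro l' hl'
    rcases List.mem_append.1 hl' with h1 | h1
    · exact hls l' h1
    · rw [List.mem_singleton.1 h1]
      exact ⟨hl, hl3⟩)
  unfold evw at h1 ⊢
  rw [Tw_append] at h1
  exact h1

private theorem Wd_add {R : Type} [AddCommGroup R] {m : ℤ} {G H : ℤ → ℤ → R} (h : Wd m G)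
    (h' : Wd m H) : Wd m (G + H) := by
  intro ls hls
  have h1 := h ls hls
  have h2 := h' ls hls
  unfold evw at h1 h2 ⊢
  rw [Tw_add, Pi.add_apply, Pi.add_apply, Pi.add_apply, Pi.add_apply, add_sub_add_comm, h1, h2,
    add_zero]

private theorem Wd_neg {R : Type} [AddCommGroup R] {m : ℤ} {G : ℤ → ℤ → R} (h : Wd m G) :
    Wd m (-G) := by
  intro ls hls
  have h1 := h ls hls
  unfold evw at h1 ⊢
  rw [Tw_neg, Pi.neg_apply, Pi.neg_apply, Pi.neg_apply, Pi.neg_apply, ← neg_sub', h1, neg_zero]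

private theorem Wd_Bo {R : Type} [AddCommGroup R] {m : ℤ} {G : ℤ → ℤ → R} (h : Wd m G) :
    Wd m (Bo m G) := by
  have h2 := Wd_Tl (Wd_Tl h (l := 2) (by norm_num) (by norm_num)) (l := 2) (by norm_num)
    (by norm_num)
  have h7 := Wd_Tl h (l := 7) (by norm_num) (by norm_num)
  have h3 := Wd_add (Wd_add h7 h) (Wd_neg h2)
  unfold Bo
  rw [sub_eq_add_neg]
  exact h3

private theorem Wd_ev3 {R : Type} [AddCommGroup R] {m : ℤ} {G : ℤ → ℤ → R} (h : Wd m G)
    (i j : ℕ) : ev3 m G i j = 0 := by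
  have h3 : Wd m ((Tl 2 m)^[i] G) := by
    induction i with
    | zero => exact h
    | succ i ih => rw [Function.iterate_succ_apply']; exact Wd_Tl ih (by norm_num) (by norm_num)
  have h4 : Wd m ((Bo m)^[j] ((Tl 2 m)^[i] G)) := by
    induction j with
    | zero => exact h3
    | succ j ih => rw [Function.iterate_succ_apply']; exact Wd_Bo ih
  exact h4 [] (by intro l hl; simp at hl)

theorem hTAp3 (h : TA3) : TAp 3 := by
  intro m M g hm hg hW hs hev
  have hW' : EqC (act 0 (-1) (3 ^ m) 0 g) (-g) := by simpa only [Nat.cast_ofNat] using hW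
  obtain ⟨ψ, h1, h2⟩ := h m M g (by omega) ((symP_three 0 m g).1 hg) hW' hs
    (fun i j => Wd_ev3 hev i j)
  refine ⟨ψ, (symP_three 0 (m - 1) ψ).2 h1, ?_⟩
  simpa only [Nat.cast_ofNat] using h2

end Pool.Agent.Helper78.WK3
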