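import Pool.Agent.Helper28.WK.StA
import Pool.Agent.Helper78.W3.StD

/-!
# Project WK3: weight 2 symbols of level `3^m` modulo `3^M`, THEOREM A for the prime three

Copy of Pool/Agent/Helper28/WK/StA.lean with `Sym3`, `NewSym3`, `ev3`, `dd3`, `DD3` in place of `Sym`, `NewSym`,
`ev`, `dd`, `DD` and `u = act 3 0 0 1` (the cusp `x` goes to `3x`). Models: the modules of project WK with
the same name without the `3`. Composition rule: `act_act`.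
-/

set_option autoImplicit false

open Pool.Agent.Helper14.CV Pool.Agent.Helper14.W3 Pool.Agent.Helper78.W3

namespace Pool.Agent.Helper78.WK3

/-- UI3. A `u`-invariant symbol is constant (content). -/
def UI3 : Prop := ∀ (R : Type) (_ : AddCommGroup R) (r s : ℕ) (χ : ℤ → ℤ → R),
  Sym3 r s χ → EqC (act 3 0 0 1 χ) χ → EqC χ 0

/-- UI3. Proof as `StUI` (model: module UI of WK), with `3` in place of `2` in the conjugations
`(3 0; 0 1) (1 b; 0 1) = (1 3b; 0 1) (3 0; 0 1)` and `(3 0; 0 1) (1 0; 3c 1) = (1 0; c 1) (3 0; 0 1)`. -/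
def StUI3 : Prop := StFar → UI3

/-- The content of BAS3. -/
def Bas3 : Prop := ∀ m : ℕ, 3 ≤ m →
  ∃ (G : Fin (DD3 m) → ℤ → ℤ → ℤ) (ij : Fin (DD3 m) → ℕ × ℕ), (∀ k, Sym3 0 m (G k)) ∧
    ¬ (3 : ℤ) ∣ Matrix.det (Matrix.of fun k l => ev3 1 (G k) (ij l).1 (ij l).2)

/-- BAS3. An integral family with determinant prime to three. Proof: exactly the proof of `S3LBof`
(Pool/Agent/Helper60/W3/M_LBof.lean) before the passage to complex numbers: `n = 2k`: `(r,s) = (k-1,k-1)`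
(`k ≥ 2`), `n = 2k+1`: `(r,s) = (k,k-1)` (`k ≥ 1`); TRI, LIF; transport of an integral symbol `G` of level
`(r+1, s+1)` to level `(0, r+s+2)` by `G0 (p,q) = G (3^(r+1) p, q)` with `ev3 1 G0 = ev3 (3^(r+1)) G`; the
matrix modulo 3 is triangular for the order (`i+4j`, then `i/2+j`). -/
def StBas3 : Prop := S3Tri → S3Lif → S3Cnt → Bas3

/-- The content of DIM3. -/
def DimS3 : Prop := ∀ (m : ℕ) (G : Fin (DD3 m) → (ℤ → ℤ → ℂ)), 3 ≤ m →
  (∀ k, Sym3 0 m (G k)) → LinearIndependent ℂ (fun k => evL3 (G k)) →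
  ∀ H : ℤ → ℤ → ℂ, Sym3 0 m H → evL3 H ∈ Submodule.span ℂ (Set.range fun k => evL3 (G k))

/-- DIM3. `finrank ((XS3 m).map evL3) ≤ DD3 m` and finiteness are `V_bound` of
Pool/Agent/Helper2/W3/M_CoreOf.lean; the span of the family is contained in it and has `finrank` `DD3 m`. -/
def StDim3 : Prop := S3B3a → S3B3b → S3UB → DimS3

/-- The content of NEX3. -/
def Nex3 : Prop := ∀ (m : ℕ) (G0 G1 : ℤ → ℤ → ℂ), 3 ≤ m →
  Sym3 0 (m - 1) G0 → NewSym3 m G1 → (∀ i j : ℕ, ev3 1 G0 i j + ev3 1 G1 i j = 0) → EqC G1 0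

/-- NEX3. The old and the new part of `ev3` are independent. Proof: definitions `V`, `W`, lemmas
`V_bound`, `W_bound`, `V_le_of_B3a` of Pool/Agent/Helper2/W3/M_CoreOf.lean; `evL3 G1 = -evL3 G0` is in
`V (m-1) ⊓ W m`. If `¬ EqC G1 0`: either `evL3 G1 = 0`, then `finrank (W m) + 1 ≤ dd3 m` (third part of
`W_bound`); or `V (m-1) ⊓ W m ≠ ⊥`, then `finrank (V (m-1) ⊔ W m) + 1 ≤ finrank (V (m-1)) + finrank (W m)`
(`Submodule.finrank_sup_add_finrank_inf_eq`). In both cases `finrank (V m) < DD3 m`, against LB, as in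
`hCoreOf`. -/
def StNex3 : Prop := S3B3a → S3B3b → S3UB → S3LB → Nex3

/-- The content of BSE3. -/
def Bse3 : Prop := ∀ K : ℤ → ℤ → ℂ, Sym3 0 2 K → EqC (act 0 (-1) (3 ^ 2) 0 K) (-K) →
  EqC (act (-1) 0 0 1 K) K → K 1 0 = K 0 1 → EqC K 0

/-- BSE3. Level 9: the argument inside `S3B3b` (Pool/Agent/Helper90/W3/M_B3b.lean): `K(1,0) = K(0,1)`,
`K∘W ≈ -K`, `K∘* ≈ K` imply that `K` is constant. -/
def StBse3 : Prop := StFar → Bse3

/-- The content of EVU3. -/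
def EvU3 : Prop := ∀ (R : Type) (_ : AddCommGroup R) (n : ℕ) (G : ℤ → ℤ → R),
  Sym3 0 n G → Sym3 0 (n + 1) (act 3 0 0 1 G) ∧ ∀ i j : ℕ, ev3 1 (act 3 0 0 1 G) i j = ev3 1 G i j

/-- EVU3. `u` maps symbols of level `3^n` to symbols of level `3^(n+1)`, commutes with `T_l` and does not
change `ev3`. Proof: (i) `u (a b; c d) = (a 3b; c/3 d) u`. (ii) `G (p + t q, q) = G (p, q)` for integers `t`
(the constant of `EqC` is `0`: evaluate at `(1, 0)`), so in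
`Tl l 1 (u G) (p,q) = G (3 l p, q) + ∑_j G (3p + 3jq, lq)` the term with `3j = j' + l t` is
`G (3p + j' q + t (l q), l q) = G (3p + j' q, lq)`, and `j ↦ 3j` modulo `l` is a permutation (`l ≠ 3`): so
`Tl l 1 (u G) = u (Tl l 1 G)` (away from the origin, `q = 0` directly). (iii) Induction, using HKS, and
`H(3,0) = H(1,0)` by `Homog`. Alternatively the model of WK (family `δ = (1 3j; 0 l)`, `(l 0; 0 1)` and HK). -/
def StEvU3 : Prop := S3Hk → S3HkS → EvU3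

/-- The content of KS3. -/
def Ks3 : Prop := ∀ (m : ℕ) (G : ℤ → ℤ → ℂ), 3 ≤ m → Sym3 0 m G →
  EqC (act 0 (-1) (3 ^ m) 0 G) (-G) → EqC (act (-1) 0 0 1 G) G → (∀ i j : ℕ, ev3 1 G i j = 0) →
  ∃ G' ψ : ℤ → ℤ → ℂ, Sym3 0 (m - 1) G' ∧ Sym3 0 (m - 1) ψ ∧
    EqC (act 0 (-1) (3 ^ (m - 1)) 0 G') (-G') ∧ EqC (act (-1) 0 0 1 G') G' ∧
    (∀ i j : ℕ, ev3 1 G' i j = 0) ∧ EqC G (G' + (act 3 0 0 1 ψ - ψ))

/-- KS3. Step of the induction for K3. Proof. `t = act 3 1 0 3`, `t2 = act 3 2 0 3`,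
`σ = act 1 0 (3^(m-1)) 1`, `σ2 = act 1 0 (2·3^(m-1)) 1`, `W = act 0 (-1) (3^m) 0`,
`W' = act 0 (-1) (3^(m-1)) 0`, `* = act (-1) 0 0 1`; relations COM up to constants. Put
`A = (G + tG + t2 G)/3`, `B = G - A`, `C = (B + σB + σ2 B)/3`, `E = B - C` (as in the proof of `S3B3a`,
Pool/Agent/Helper72/W3/M_B3a.lean): `G = A + C + E`; `A` is `t`-invariant, `C` is `σ`-invariant, `E` has `t`- and
`σ`-average zero. `W` exchanges the two averages and `t`, `σ` commute, so `W E ≈ -E` (from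
`W G ≈ -G`), all averages commute with `*`, so `* E ≈ E`, `* A ≈ A`, `* C ≈ C`: `E` is a `NewSym3`. By LVL
`C` and `W A` have level `3^(m-1)`; `ev3 A = -ev3 (W A)`, so `0 = ev3 G = ev3 (C - W A) + ev3 E` and
`E ≈ 0` by NEX3. Put `ω = (C - W A)/2` of level `3^(m-1)`, `* ω ≈ ω`: from `G ≈ A + C`, `G ≈ -W G`, `W W ≈ 1`:
`ω - W ω ≈ ((A + C) - W (A + C))/2 ≈ G`. `W ω = u (W' ω)` exactly (`act_act`). Take `G' = ω - W' ω`,
`ψ = -W' ω`: `G ≈ ω - u W' ω = G' + (u ψ - ψ)`. `W'` normalises level `3^(m-1)` (NRM, `m - 1 ≥ 2`) and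
`W' W' ω ≈ ω` (`W' W' = -3^(m-1)`, `Homog`), so `W' G' ≈ -G'`; `* G' ≈ G'`; `ev3 G' = ev3 G - ev3 (u ψ) + ev3 ψ = 0`
by EVU3. -/
def StKs3 : Prop := S3Nrm → S3Ev → S3Lvl → S3Com → Nex3 → EvU3 → Ks3

/-- The content of K3. -/
def Kk3 : Prop := ∀ (m : ℕ) (G : ℤ → ℤ → ℂ), 3 ≤ m → Sym3 0 m G →
  EqC (act 0 (-1) (3 ^ m) 0 G) (-G) → EqC (act (-1) 0 0 1 G) G → (∀ i j : ℕ, ev3 1 G i j = 0) →
  ∃ ψ : ℤ → ℤ → ℂ, Sym3 0 (m - 1) ψ ∧ EqC (act 3 0 0 1 ψ - ψ) G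

/-- K3. The kernel of `ev3` is the image of `u - 1`. Proof: induction on `m` (KS3). `m = 3`: `G'` has level
9, `ev3 1 G' 0 0 = G' 1 0 - G' 0 1 = 0`, BSE3: `G' ≈ 0`. `m ≥ 4`: `G' ≈ u ψ' - ψ'` with `ψ'` of level
`3^(m-2)`, so of level `3^(m-1)`. -/
def StK3 : Prop := Ks3 → Bse3 → Kk3

/-- LFM3. Lifting solutions of the relation from `ZMod (3^M)` to `ℤ`: the proof of `S3Lifp`
(Pool/Agent/Helper78/W3/M_Lifp.lean) with `ZMod (3^M)` in place of `ZMod 3`. -/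
def StLfm3 : Prop := ∀ (r s M : ℕ) (f : Fin 3 → ZMod (3 ^ r) → ZMod (3 ^ s) → ZMod (3 ^ M)), Rel3 f →
  ∃ F : Fin 3 → ZMod (3 ^ r) → ZMod (3 ^ s) → ℤ, Rel3 F ∧
    ∀ i x y, ((F i x y : ℤ) : ZMod (3 ^ M)) = f i x y

/-- The content of LFT3. -/
def Lft3 : Prop := ∀ (m M : ℕ) (g : ℤ → ℤ → ZMod (3 ^ M)), 2 ≤ m →
  Sym3 0 m g → ∃ G : ℤ → ℤ → ℤ, Sym3 0 m G ∧ EqC (fun p q => ((G p q : ℤ) : ZMod (3 ^ M))) g

/-- LFT3. Lifting symbols of level `3^m` from `ZMod (3^M)` to `ℤ`. Proof: `m = r + 2`, `s = 0`. The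
potential `g1 (p,q) = g (p, 3^(r+1) q)` is a symbol of level `(r+1, 1)`; REL, LFM3, EX over `ℤ`
give an integral symbol `G1` of level `(r+1, 1)` whose reduction has the same plane functions as
`g1`, so it equals `g1` up to a constant (UNI over `ZMod (3^M)`; cf. Pool/Agent/Helper66/W3/M_Lif.lean).
Transport back: `G (p,q) = G1 (3^(r+1) p, q)`, a symbol of level `(0, r+2)`, and
`g1 (3^(r+1) p, q) = g (3^(r+1) p, 3^(r+1) q) = g (p, q)`. -/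
def StLft3 : Prop := S3Rel → S3Ex → S3Uni → StLfm3 → Lft3

/-- The content of CRM3. -/
def Crm3 : Prop := ∀ (m M : ℕ) (g : ℤ → ℤ → ZMod (3 ^ M)), 3 ≤ m → Sym3 0 m g →
  (∀ i j : ℕ, ev3 1 g i j = 0) → ∃ (d : ℤ) (G : ℤ → ℤ → ℤ), ¬ 3 ∣ d ∧ Sym3 0 m G ∧
    (∀ i j : ℕ, ev3 1 G i j = 0) ∧ EqC (fun p q => ((G p q : ℤ) : ZMod (3 ^ M))) (d • g)

/-- CRM3. Cramer. Proof. Let `G~` be an integral lift of `g` (LFT3), `G_k`, `(i_k, j_k)` from BAS3,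
`X = (ev3 1 G_k i_l j_l)`, `d = det X` prime to three. The complexifications of the `G_k` have independent
`evL3` (`d ≠ 0`), so by DIM3 `ev3 1 G~ i j = ∑_k y_k ev3 1 G_k i j` (all `i, j`) with complex `y_k`. With
`e_l = ev3 1 G~ i_l j_l` (integers divisible by `3^M`, since `ev3 1 g = 0` and `ev3` commutes with reduction)
`y X = e`, so `d y = e adj(X)`: `d y_k = 3^M z_k` with integers `z_k`. Put
`G = d G~ - 3^M ∑ z_k G_k`. -/
def StCrm3 : Prop := Bas3 → DimS3 → Lft3 → Crm3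

/-- The content of INT3. -/
def IntS3 : Prop := ∀ (m : ℕ) (ψ : ℤ → ℤ → ℂ) (G : ℤ → ℤ → ℤ), Sym3 0 m ψ →
  EqC (act 3 0 0 1 ψ - ψ) (fun p q => ((G p q : ℤ) : ℂ)) →
  ∃ ψ' : ℤ → ℤ → ℤ, Sym3 0 m ψ' ∧ EqC (act 3 0 0 1 ψ' - ψ') G

/-- INT3. Integrality. Proof: `ψ - ψ(1,0)` modulo `ℤ`, with values in the quotient group
`ℂ ⧸ AddSubgroup.zmultiples (1 : ℂ)` (or `ℂ ⧸ (Int.castAddHom ℂ).range`), is a `u`-invariant symbol, so it is
zero away from the origin by UI3 (it vanishes at `(1,0)`); choose the integers `ψ' p q` with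
`ψ p q - ψ 1 0 = ψ' p q` away from the origin (`ψ' 0 0 = 0`). The constants in `EqC` are integers:
evaluate at `(1, 0)`. -/
def StInt3 : Prop := UI3 → IntS3

/-- The content of TA3 (Theorem A for the prime three). -/
def TA3 : Prop := ∀ (m M : ℕ) (g : ℤ → ℤ → ZMod (3 ^ M)), 3 ≤ m → Sym3 0 m g →
  EqC (act 0 (-1) (3 ^ m) 0 g) (-g) → EqC (act (-1) 0 0 1 g) g → (∀ i j : ℕ, ev3 1 g i j = 0) →
  ∃ ψ : ℤ → ℤ → ZMod (3 ^ M), Sym3 0 (m - 1) ψ ∧ EqC (act 3 0 0 1 ψ - ψ) ((4 : ℤ) • g)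

/-- TA3. Proof. `d`, `G1` from CRM3. `G2 = G1 - W G1 + * (G1 - W G1)` (integral;
`W = act 0 (-1) (3^m) 0`, `* = act (-1) 0 0 1`). Its complexification is a symbol (NRM) with
`W G2 ≈ -G2`, `* G2 ≈ G2` (COM) and `ev3 G2 = 4 ev3 G1 = 0` (EV). By K3 and INT3 there is an integral
`ψ1` with `u ψ1 - ψ1 ≈ G2`. Modulo `3^M`: `G2 ≡ d (g - W g + * (g - W g)) ≈ 4 d g` up to constants.
Multiply by an integer `d'` with `d d' ≡ 1` modulo `3^M`. -/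
def StTA3 : Prop := S3Nrm → S3Ev → S3Com → Crm3 → Kk3 → IntS3 → TA3

end Pool.Agent.Helper78.WK3
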