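import Pool.Agent.Helper78.WK3.StA
import Pool.Agent.Helper78.W3.M_Trm
set_option autoImplicit false
namespace Pool.Agent.Helper78.WK3.LfmM

open Pool.Agent.Helper14.W3 Pool.Agent.Helper78.W3

private abbrev Pt (r s : ℕ) : Type := ZMod (3 ^ r) × ZMod (3 ^ s)

private def mu {r s : ℕ} (a b c d : ℤ) (p : Pt r s) : Pt r s :=
  tr a b c d (fun x y => ((x, y) : Pt r s)) p.1 p.2

private theorem tr_mu {R : Type} {r s : ℕ} (a b c d : ℤ) (F : ZMod (3 ^ r) → ZMod (3 ^ s) → R)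
    (p : Pt r s) : tr a b c d F p.1 p.2 = F (mu a b c d p).1 (mu a b c d p).2 := rfl

private theorem mu_mul (hTrm : S3Trm) {r s : ℕ} {a b c d a' b' c' d' : ℤ} (h1 : ¬ 3 ∣ a)
    (h2 : ¬ 3 ∣ d) (h3 : ¬ 3 ∣ a') (h4 : ¬ 3 ∣ d') (p : Pt r s) :
    mu a' b' c' d' (mu a b c d p) =
      mu (a * a' + 9 * b * c') (a * b' + b * d') (c * a' + d * c') (9 * c * b' + d * d') p := by
  have h := congrFun (congrFun ((hTrm (Pt r s) r s (fun x y => (x, y))).1 a b c d a' b' c' d'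
    h1 h2 h3 h4) p.1) p.2
  exact h

private theorem mu_one (hTrm : S3Trm) {r s : ℕ} (p : Pt r s) : mu 1 0 0 1 p = p := by
  have h := congrFun (congrFun (hTrm (Pt r s) r s (fun x y => (x, y))).2.1 p.1) p.2
  exact h

private theorem res {a b c d : ℤ} (h : a * d - 9 * b * c = 1) : ¬ 3 ∣ a ∧ ¬ 3 ∣ d := by
  constructor
  · rintro ⟨k, rfl⟩
    have : 3 * (k * d) - 9 * (b * c) = 1 := by linear_combination h
    omega
  · rintro ⟨k, rfl⟩
    have : 3 * (a * k) - 9 * (b * c) = 1 := by linear_combination h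
    omega

private theorem mu_inv (hTrm : S3Trm) {r s : ℕ} {a b c d : ℤ} (h : a * d - 9 * b * c = 1)
    (p : Pt r s) : mu d (-b) (-c) a (mu a b c d p) = p := by
  obtain ⟨h1, h2⟩ := res h
  rw [mu_mul hTrm h1 h2 h2 h1]
  have e1 : a * d + 9 * b * -c = 1 := by linear_combination h
  have e2 : a * -b + b * a = 0 := by ring
  have e3 : c * d + d * -c = 0 := by ring
  have e4 : 9 * c * -b + d * a = 1 := by linear_combination h
  rw [e1, e2, e3, e4, mu_one hTrm]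

private theorem mu_bij (hTrm : S3Trm) {r s : ℕ} {a b c d : ℤ} (h : a * d - 9 * b * c = 1) :
    Function.Bijective (mu a b c d : Pt r s → Pt r s) := by
  refine Function.bijective_iff_has_inverse.2 ⟨mu d (-b) (-c) a, fun p => mu_inv hTrm h p,
    fun p => ?_⟩
  have := mu_inv hTrm (r := r) (s := s) (a := d) (b := -b) (c := -c) (d := a)
    (by linear_combination h) p
  rw [neg_neg, neg_neg] at this
  exact this

private instance fin_pt (r s : ℕ) : Fintype (Pt r s) := by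
  have : NeZero (3 ^ r) := ⟨by positivity⟩
  have : NeZero (3 ^ s) := ⟨by positivity⟩
  infer_instance

/-- the defect of the relation -/
private def cob (r s : ℕ) : (Fin 3 → Pt r s → ℤ) →+ (Pt r s → ℤ) where
  toFun H := fun p => H 0 p - H 0 (mu 1 0 1 1 p) - (H 1 p - H 1 (mu (-2) 1 (-1) 4 p)) +
    (H 2 (mu 1 0 1 1 p) - H 2 (mu (-2) (-1) (-1) (-5) p))
  map_zero' := by funext p; simp
  map_add' H K := by funext p; simp only [Pi.add_apply]; ring

private noncomputable def dl {r s : ℕ} (p : Pt r s) : Pt r s → ℤ := by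
  classical exact Pi.single p 1

private theorem dl_app {r s : ℕ} (p q : Pt r s) [Decidable (q = p)] :
    dl p q = if q = p then 1 else 0 := by
  classical
  unfold dl
  rw [Pi.single_apply]
  congr

private def Eqp {r s : ℕ} (p q : Pt r s) : Prop := dl p - dl q ∈ (cob r s).range

private theorem Eqp.rfl' {r s : ℕ} (p : Pt r s) : Eqp p p := by
  unfold Eqp; rw [sub_self]; exact zero_mem _

private theorem Eqp.sym {r s : ℕ} {p q : Pt r s} (h : Eqp p q) : Eqp q p := by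
  unfold Eqp at *; have := neg_mem h; rwa [neg_sub] at this

private theorem Eqp.trs {r s : ℕ} {p q t : Pt r s} (h : Eqp p q) (h' : Eqp q t) : Eqp p t := by
  unfold Eqp at *; have := add_mem h h'; rwa [sub_add_sub_cancel] at this

private theorem dl_inj {r s : ℕ} {f : Pt r s → Pt r s} (hf : Function.Injective f) (p q : Pt r s) :
    dl (f p) (f q) = dl p q := by
  classical
  rw [dl_app, dl_app]
  simp [hf.eq_iff]

private theorem eB (hTrm : S3Trm) {r s : ℕ} (p : Pt r s) : Eqp (mu 1 0 1 1 p) p := by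
  refine ⟨![dl (mu 1 0 1 1 p), 0, 0], ?_⟩
  funext q
  have h := dl_inj (mu_bij hTrm (r := r) (s := s) (a := 1) (b := 0) (c := 1) (d := 1)
    (by norm_num)).1 p q
  simp [cob, h]

private theorem eC (hTrm : S3Trm) {r s : ℕ} (p : Pt r s) : Eqp (mu (-2) 1 (-1) 4 p) p := by
  refine ⟨![0, -dl (mu (-2) 1 (-1) 4 p), 0], ?_⟩
  funext q
  have h := dl_inj (mu_bij hTrm (r := r) (s := s) (a := -2) (b := 1) (c := -1) (d := 4)
    (by norm_num)).1 p q
  simp [cob, h]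
  ring

private theorem eCA (hTrm : S3Trm) {r s : ℕ} (p : Pt r s) :
    Eqp (mu (-2) (-1) (-1) (-5) p) p := by
  obtain ⟨q, hq⟩ := (mu_bij hTrm (r := r) (s := s) (a := 1) (b := 0) (c := 1) (d := 1)
    (by norm_num)).2 (mu (-2) (-1) (-1) (-5) p)
  have h1 : Eqp q p := by
    refine ⟨![0, 0, dl (mu (-2) (-1) (-1) (-5) p)], ?_⟩
    funext t
    have h := dl_inj (mu_bij hTrm (r := r) (s := s) (a := -2) (b := -1) (c := -1) (d := -5)
      (by norm_num)).1 p t
    have h' := dl_inj (mu_bij hTrm (r := r) (s := s) (a := 1) (b := 0) (c := 1) (d := 1)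
      (by norm_num)).1 q t
    rw [hq] at h'
    simp [cob, h, h']
  have h2 := eB hTrm q
  rw [hq] at h2
  exact h2.trs h1

private theorem eA (hTrm : S3Trm) {r s : ℕ} (p : Pt r s) : Eqp (mu 1 1 0 1 p) p := by
  obtain ⟨q, rfl⟩ := (mu_bij hTrm (r := r) (s := s) (a := -2) (b := 1) (c := -1) (d := 4)
    (by norm_num)).2 p
  have h := mu_mul hTrm (r := r) (s := s) (a := -2) (b := 1) (c := -1) (d := 4) (a' := 1) (b' := 1)
    (c' := 0) (d' := 1) (by norm_num) (by norm_num) (by norm_num) (by norm_num) q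
  norm_num at h
  rw [h]
  exact (eCA hTrm q).trs (eC hTrm q).sym

private theorem eqp_y (hTrm : S3Trm) {r s : ℕ} : ∀ (n : ℕ),
    Eqp ((0, (n : ZMod (3 ^ s))) : Pt r s) (0, 0) := by
  intro n
  induction n with
  | zero => rw [Nat.cast_zero]; exact Eqp.rfl' _
  | succ n ih =>
    have h := eB hTrm ((0, (n : ZMod (3 ^ s))) : Pt r s)
    have e : mu 1 0 1 1 ((0, (n : ZMod (3 ^ s))) : Pt r s) = (0, ((n + 1 : ℕ) : ZMod (3 ^ s))) := by
      have h1 : ((1 : ZMod (3 ^ s)))⁻¹ = 1 := ZMod.inv_eq_of_mul_eq_one _ _ _ (by ring)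
      simp [mu, tr, h1, add_comm]
    rw [e] at h
    exact h.trs ih

private theorem eqp_x (hTrm : S3Trm) {r s : ℕ} : ∀ (n : ℕ) (x : ZMod (3 ^ r)) (y : ZMod (3 ^ s)),
    x + n = 0 → Eqp ((x, y) : Pt r s) (0, 0) := by
  intro n
  induction n with
  | zero =>
    intro x y h
    have : NeZero (3 ^ s) := ⟨by positivity⟩
    rw [Nat.cast_zero, add_zero] at h
    subst h
    have := eqp_y hTrm (r := r) (s := s) y.val
    rwa [ZMod.natCast_zmod_val] at this
  | succ n ih =>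
    intro x y h
    have h1 := eA hTrm ((x, y) : Pt r s)
    refine h1.sym.trs ?_
    have h2 : (mu 1 1 0 1 ((x, y) : Pt r s)).1 = x + 1 := by
      have h1 : ((1 : ZMod (3 ^ r)))⁻¹ = 1 := ZMod.inv_eq_of_mul_eq_one _ _ _ (by ring)
      simp [mu, tr, h1, add_comm]
    have h3 : mu 1 1 0 1 ((x, y) : Pt r s) = (x + 1, (mu 1 1 0 1 ((x, y) : Pt r s)).2) := by
      rw [← h2]
    rw [h3]
    apply ih
    rw [← h]
    push_cast
    ring

private theorem eqp_all (hTrm : S3Trm) {r s : ℕ} (p : Pt r s) : Eqp p (0, 0) := by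
  have : NeZero (3 ^ r) := ⟨by positivity⟩
  exact eqp_x hTrm (-p.1).val p.1 p.2 (by rw [ZMod.natCast_zmod_val]; ring)

private theorem mem_of_sum (hTrm : S3Trm) {r s : ℕ} (E : Pt r s → ℤ) (hE : ∑ p, E p = 0) :
    E ∈ (cob r s).range := by
  classical
  have h1 : E = ∑ p, E p • (dl p - dl (0, 0)) := by
    have h2 : ∑ p, E p • (dl p - dl ((0, 0) : Pt r s)) =
        ∑ p, E p • dl p - (∑ p, E p) • dl ((0, 0) : Pt r s) := by
      rw [Finset.sum_smul, ← Finset.sum_sub_distrib]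
      exact Finset.sum_congr rfl fun p _ => smul_sub _ _ _
    rw [h2, hE, zero_smul, sub_zero]
    funext q
    rw [Finset.sum_apply]
    simp [dl_app]
  rw [h1]
  exact sum_mem fun p _ => zsmul_mem (eqp_all hTrm p) _

private theorem sum_cob (hTrm : S3Trm) {r s : ℕ} (H : Fin 3 → Pt r s → ℤ) :
    ∑ p, cob r s H p = 0 := by
  have hB := fun i => (mu_bij hTrm (r := r) (s := s) (a := 1) (b := 0) (c := 1) (d := 1)
    (by norm_num)).sum_comp (H i)
  have hC := fun i => (mu_bij hTrm (r := r) (s := s) (a := -2) (b := 1) (c := -1) (d := 4)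
    (by norm_num)).sum_comp (H i)
  have hD := fun i => (mu_bij hTrm (r := r) (s := s) (a := -2) (b := -1) (c := -1) (d := -5)
    (by norm_num)).sum_comp (H i)
  show ∑ p, (H 0 p - H 0 (mu 1 0 1 1 p) - (H 1 p - H 1 (mu (-2) 1 (-1) 4 p)) +
    (H 2 (mu 1 0 1 1 p) - H 2 (mu (-2) (-1) (-1) (-5) p))) = 0
  simp only [Finset.sum_add_distrib, Finset.sum_sub_distrib]
  rw [hB 0, hB 2, hC 1, hD 2]
  ring

theorem hLfm3 : StLfm3 := by
  have hTrm := Pool.Agent.Helper78.W3.hTrm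
  intro r s M f hf
  have hM : NeZero (3 ^ M) := ⟨by positivity⟩
  let L : Fin 3 → Pt r s → ℤ := fun i p => ((f i p.1 p.2).val : ℤ)
  have hL : ∀ i p, ((L i p : ℤ) : ZMod (3 ^ M)) = f i p.1 p.2 := by
    intro i p
    simp only [L]
    push_cast
    exact ZMod.natCast_zmod_val _
  have h3 : ∀ p, ((3 ^ M : ℕ) : ℤ) ∣ cob r s L p := by
    intro p
    apply (ZMod.intCast_zmod_eq_zero_iff_dvd _ (3 ^ M)).1
    have h := hf p.1 p.2
    show ((L 0 p - L 0 (mu 1 0 1 1 p) - (L 1 p - L 1 (mu (-2) 1 (-1) 4 p)) +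
      (L 2 (mu 1 0 1 1 p) - L 2 (mu (-2) (-1) (-1) (-5) p)) : ℤ) : ZMod (3 ^ M)) = 0
    push_cast
    rw [hL, hL, hL, hL, hL, hL]
    exact h
  choose D hD using h3
  have hs : ∑ p, D p = 0 := by
    have h := sum_cob hTrm L
    rw [Finset.sum_congr rfl fun p _ => hD p, ← Finset.mul_sum] at h
    have h0 : ((3 ^ M : ℕ) : ℤ) ≠ 0 := by positivity
    exact (mul_eq_zero.1 h).resolve_left h0
  obtain ⟨H, hH⟩ := mem_of_sum hTrm D hs
  refine ⟨fun i x y => L i (x, y) - ((3 ^ M : ℕ) : ℤ) * H i (x, y), ?_, ?_⟩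
  · intro x y
    have h1 := hD (x, y)
    have h2 := congrFun hH (x, y)
    have e1 : cob r s L (x, y) = L 0 (x, y) - L 0 (mu 1 0 1 1 (x, y)) -
      (L 1 (x, y) - L 1 (mu (-2) 1 (-1) 4 (x, y))) +
      (L 2 (mu 1 0 1 1 (x, y)) - L 2 (mu (-2) (-1) (-1) (-5) (x, y))) := rfl
    have e2 : cob r s H (x, y) = H 0 (x, y) - H 0 (mu 1 0 1 1 (x, y)) -
      (H 1 (x, y) - H 1 (mu (-2) 1 (-1) 4 (x, y))) +
      (H 2 (mu 1 0 1 1 (x, y)) - H 2 (mu (-2) (-1) (-1) (-5) (x, y))) := rfl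
    rw [e1] at h1
    rw [e2] at h2
    show (L 0 (x, y) - ((3 ^ M : ℕ) : ℤ) * H 0 (x, y)) -
      (L 0 (mu 1 0 1 1 (x, y)) - ((3 ^ M : ℕ) : ℤ) * H 0 (mu 1 0 1 1 (x, y))) -
      ((L 1 (x, y) - ((3 ^ M : ℕ) : ℤ) * H 1 (x, y)) -
        (L 1 (mu (-2) 1 (-1) 4 (x, y)) - ((3 ^ M : ℕ) : ℤ) * H 1 (mu (-2) 1 (-1) 4 (x, y)))) +
      ((L 2 (mu 1 0 1 1 (x, y)) - ((3 ^ M : ℕ) : ℤ) * H 2 (mu 1 0 1 1 (x, y))) -
        (L 2 (mu (-2) (-1) (-1) (-5) (x, y)) -
          ((3 ^ M : ℕ) : ℤ) * H 2 (mu (-2) (-1) (-1) (-5) (x, y)))) = 0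
    linear_combination h1 - ((3 ^ M : ℕ) : ℤ) * h2
  · intro i x y
    have h := hL i (x, y)
    have h0 : (((3 ^ M : ℕ) : ℤ) : ZMod (3 ^ M)) = 0 := by
      rw [Int.cast_natCast]
      exact ZMod.natCast_self _
    rw [Int.cast_sub, Int.cast_mul, h, h0, zero_mul, sub_zero]

end Pool.Agent.Helper78.WK3.LfmM
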