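import Pool.Agent.Helper10.CV.M_N1
import Pool.Agent.Helper10.W3.M_Tre
import Pool.Agent.Helper10.W3.M_Trq
import Pool.Agent.Helper16.W3.M_HkW
import Pool.Agent.Helper16.W3.M_SubA
import Pool.Agent.Helper2.W3.M_CoreOf
import Pool.Agent.Helper2.WK3.M_Dim3
import Pool.Agent.Helper2.WK3.M_Nex3
import Pool.Agent.Helper22.W3.M_Ev
import Pool.Agent.Helper22.W3.M_Tri
import Pool.Agent.Helper24.W3.M_Exp
import Pool.Agent.Helper24.W3.M_UBof
import Pool.Agent.Helper25.W3.M_KerO
import Pool.Agent.Helper25.W3.M_SubB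
import Pool.Agent.Helper28.W3.M_E1
import Pool.Agent.Helper29.W3.M_HkT
import Pool.Agent.Helper29.W3.M_Low0
import Pool.Agent.Helper32.W3.M_Uni
import Pool.Agent.Helper32.WK3.M_Lft3
import Pool.Agent.Helper34.W3.M_DimE
import Pool.Agent.Helper34.W3.M_Unb
import Pool.Agent.Helper36.W3.M_Edg
import Pool.Agent.Helper36.W3.M_Hk2
import Pool.Agent.Helper37.W3.M_Lw1
import Pool.Agent.Helper37.W3.M_Rmap
import Pool.Agent.Helper37.WK3.M_Int3
import Pool.Agent.Helper38.CV.M_Far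
import Pool.Agent.Helper43.W3.M_Hk7_0
import Pool.Agent.Helper43.WK3.M_TA3
import Pool.Agent.Helper47.W3.M_Hk7_1
import Pool.Agent.Helper47.W3.M_Hk7_2
import Pool.Agent.Helper47.W3.M_Nrm
import Pool.Agent.Helper53.W3.M_HkS
import Pool.Agent.Helper55.CV.M_Fex
import Pool.Agent.Helper6.W3.M_Nf
import Pool.Agent.Helper60.W3.M_LBof
import Pool.Agent.Helper62.W3.M_Led
import Pool.Agent.Helper63.W3.M_Rel
import Pool.Agent.Helper66.W3.M_Lif
import Pool.Agent.Helper66.WK3.M_K3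
import Pool.Agent.Helper67.W3.M_O1
import Pool.Agent.Helper69.W3.M_DimO
import Pool.Agent.Helper69.W3.M_HkF
import Pool.Agent.Helper69.WK3.M_Crm3
import Pool.Agent.Helper7.W3.M_Hk
import Pool.Agent.Helper7.W3.M_Ld
import Pool.Agent.Helper7.W3.M_PlU
import Pool.Agent.Helper7.WK3.M_UI3
import Pool.Agent.Helper71.W3.M_DimF
import Pool.Agent.Helper72.W3.M_B3a
import Pool.Agent.Helper72.W3.M_Cnt
import Pool.Agent.Helper76.W3.M_Itr
import Pool.Agent.Helper76.WK3.M_Ks3
import Pool.Agent.Helper78.W3.M_Cert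
import Pool.Agent.Helper78.W3.M_Ex
import Pool.Agent.Helper78.W3.M_Lifp
import Pool.Agent.Helper78.W3.M_Trm
import Pool.Agent.Helper78.WK3.M_Lfm3
import Pool.Agent.Helper78.WK3.M_Ta3
import Pool.Agent.Helper80.WK3.M_Bse3
import Pool.Agent.Helper83.W3.M_HkB
import Pool.Agent.Helper86.W3.M_Bal
import Pool.Agent.Helper86.W3.M_Prd
import Pool.Agent.Helper86.W3.M_Sur
import Pool.Agent.Helper9.W3.M_Com
import Pool.Agent.Helper9.W3.M_Lvl
import Pool.Agent.Helper90.W3.M_B3b
import Pool.Agent.Helper90.WK3.M_EvU3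
import Pool.Agent.Helper98.W3.M_PlA
import Pool.Agent.Helper98.WK3.M_Bas3
import Pool.Agent.Helper99.W3.M_Bb

/-!
# Theorem A for `p = 3` without hypotheses
-/

set_option autoImplicit false

open Pool.Agent.Helper14.CV Pool.Agent.Helper14.W3 Pool.Agent.Helper78.W3 Pool.Agent.Helper28.WK

namespace Pool.Agent.Helper78.WK3

theorem hAll : TAp 3 := by
  have n1 := Pool.Agent.Helper10.CV.hN1
  have nrm := Pool.Agent.Helper47.W3.hNrm
  have far := Pool.Agent.Helper38.CV.hFar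
  have hk := Pool.Agent.Helper7.W3.hHk n1
  have hkS := Pool.Agent.Helper53.W3.hHkS hk
  have hkW := Pool.Agent.Helper16.W3.hHkW hk hkS
  have hkT := Pool.Agent.Helper29.W3.hHkT hk hkS
  have hev := Pool.Agent.Helper22.W3.hEv hkS hkW hkT nrm
  have com := Pool.Agent.Helper9.W3.hCom
  have lvl := Pool.Agent.Helper9.W3.hLvl nrm
  have b3a := Pool.Agent.Helper72.W3.hB3a nrm com lvl hev
  have b3b := Pool.Agent.Helper90.W3.hB3b far nrm hev
  -- upper bound
  have plA := Pool.Agent.Helper98.W3.hPlA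
  have plU := Pool.Agent.Helper7.W3.hPlU
  have edg := Pool.Agent.Helper36.W3.hEdg plA plU
  have e1 := Pool.Agent.Helper28.W3.hE1 edg plA far
  have o1 := Pool.Agent.Helper67.W3.hO1 edg plA far
  have trq := Pool.Agent.Helper10.W3.hTrq
  have dimE := Pool.Agent.Helper34.W3.hDimE trq
  have kerO := Pool.Agent.Helper25.W3.hKerO Pool.Agent.Helper37.W3.hRmap
    (Pool.Agent.Helper69.W3.hDimO trq) (Pool.Agent.Helper71.W3.hDimF trq)
  have ub := Pool.Agent.Helper24.W3.hUBof Pool.Agent.Helper86.W3.hBal e1 o1 dimE kerO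
  -- lower bound
  have trm := Pool.Agent.Helper78.W3.hTrm
  have tre := Pool.Agent.Helper10.W3.hTre plA edg
  have rel := Pool.Agent.Helper63.W3.hRel tre
  have ex := Pool.Agent.Helper78.W3.ExM.hEx trm plA Pool.Agent.Helper55.CV.hFex far
  have uni := Pool.Agent.Helper32.W3.hUni tre edg far
  have hkB := Pool.Agent.Helper83.W3.hHkB hk
  have hkF := Pool.Agent.Helper69.W3.hHkF hkB plA edg
  have hk2 := Pool.Agent.Helper36.W3.hHk2 hkF tre trm
  have hk7 : ∀ i, S3Hk7 i := by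
    intro i
    fin_cases i
    · exact Pool.Agent.Helper43.W3.hHk7_0 hkF tre trm
    · exact Pool.Agent.Helper47.W3.hHk7_1 hkF tre trm
    · exact Pool.Agent.Helper47.W3.R2.hHk7_2 hkF tre trm
  have low0 := Pool.Agent.Helper29.W3.hLow0
  have prd := Pool.Agent.Helper86.W3.hPrd low0
  have subA := Pool.Agent.Helper16.W3.hSubA low0 prd
  have subB := Pool.Agent.Helper25.W3.hSubB low0 prd
  have nf := Pool.Agent.Helper6.W3.hNf low0 subA subB
  have exp := Pool.Agent.Helper24.W3.hExp low0 nf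
  have lw1 := Pool.Agent.Helper37.W3.hLw1 low0 nf exp
  have ld := Pool.Agent.Helper7.W3.hLd trm low0 nf exp lw1 Pool.Agent.Helper78.W3.hCert
  have bb := Pool.Agent.Helper99.W3.hBb low0
  have sur := Pool.Agent.Helper86.W3.hSur low0 lw1 bb
  have led := Pool.Agent.Helper62.W3.hLed low0 lw1 bb sur
  have itr := Pool.Agent.Helper76.W3.hItr rel hkB hk2 hk7 trm low0 lw1 ld
  have tri := Pool.Agent.Helper22.W3.hTri low0 bb led ex itr
  have lif := Pool.Agent.Helper66.W3.hLif rel (Pool.Agent.Helper78.W3.LifpM.hLifp trm) ex uni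
  have lb := Pool.Agent.Helper60.W3.hLBof tri lif Pool.Agent.Helper34.W3.hUnb
    Pool.Agent.Helper72.W3.hCnt
  -- Theorem A
  have ui := Pool.Agent.Helper7.WK3.hUI3 far
  have bas := Pool.Agent.Helper98.WK3.hBas3 tri lif Pool.Agent.Helper72.W3.hCnt
  have dim := Pool.Agent.Helper2.WK3.hDim3 b3a b3b ub
  have nex := Pool.Agent.Helper2.WK3.hNex3 b3a b3b ub lb
  have bse := Pool.Agent.Helper80.WK3.hBse3 far
  have evu := Pool.Agent.Helper90.WK3.hEvU3 hk hkS
  have ks := Pool.Agent.Helper76.WK3.hKs3 nrm hev lvl com nex evu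
  have kk := Pool.Agent.Helper66.WK3.hK3 ks bse
  have lft := Pool.Agent.Helper32.WK3.hLft3 rel ex uni Pool.Agent.Helper78.WK3.LfmM.hLfm3
  have crm := Pool.Agent.Helper69.WK3.hCrm3 bas dim lft
  have int := Pool.Agent.Helper37.WK3.hInt3 ui
  exact Pool.Agent.Helper78.WK3.hTAp3 (Pool.Agent.Helper43.WK3.hTA3 nrm hev com crm kk int)

end Pool.Agent.Helper78.WK3
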